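import Pool.Agent.H24.CL.TargetsK

/-!
The critical Vinogradov mean value for all `k` (`MP_e21eee_nt`), row PP: one popular path.
-/

set_option autoImplicit false

open Finset MeasureTheory

namespace Pool.Agent.H7.CLK

open Pool.Agent.H24.CL

namespace PP

theorem Ch_snoc {k : ℕ} (q : ℕ) (l : List ℕ) (c : ℕ) (a : X k) :
    Ch q (l ++ [c]) a = phi q c (Ch q l a) := by
  induction l generalizing a with
  | nil => rfl
  | cons b l ih => exact ih (phi q b a)

open Classical in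
/-- the pigeonhole principle -/
theorem pigeon {α : Type} (Y : Finset α) (D : α → Finset ℕ) (q : ℕ) (hq : 1 ≤ q) (β : ℝ)
    (hD : ∀ y ∈ Y, D y ⊆ range q ∧ β ≤ ((D y).card : ℝ)) :
    ∃ b < q, (Y.card : ℝ) * β ≤ q * ((Y.filter fun y => b ∈ D y).card : ℝ) := by
  have hq0 : (0 : ℝ) < q := by exact_mod_cast hq
  have h1 : ∑ b ∈ range q, ((Y.filter fun y => b ∈ D y).card : ℝ) = ∑ y ∈ Y, ((D y).card : ℝ) := by
    have h2 : ∀ b ∈ range q, ((Y.filter fun y => b ∈ D y).card : ℝ) =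
        ∑ y ∈ Y, if b ∈ D y then (1 : ℝ) else 0 := by
      intro b _
      rw [Finset.sum_boole]
    rw [Finset.sum_congr rfl h2, Finset.sum_comm]
    refine Finset.sum_congr rfl fun y hy => ?_
    rw [Finset.sum_boole]
    congr 2
    ext b
    simp only [Finset.mem_filter]
    exact ⟨fun h => h.2, fun h => ⟨(hD y hy).1 h, h⟩⟩
  have h3 : ∑ _b ∈ range q, (Y.card : ℝ) * β / q ≤
      ∑ b ∈ range q, ((Y.filter fun y => b ∈ D y).card : ℝ) := by
    rw [h1, Finset.sum_const, Finset.card_range, nsmul_eq_mul, mul_div_cancel₀ _ hq0.ne']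
    calc (Y.card : ℝ) * β = ∑ _y ∈ Y, β := by rw [Finset.sum_const, nsmul_eq_mul]
      _ ≤ ∑ y ∈ Y, ((D y).card : ℝ) := Finset.sum_le_sum fun y hy => (hD y hy).2
  obtain ⟨b, hb, h4⟩ := Finset.exists_le_of_sum_le (Finset.nonempty_range_iff.2 (by omega)) h3
  refine ⟨b, Finset.mem_range.1 hb, ?_⟩
  rw [div_le_iff₀ hq0] at h4
  linarith

theorem main (k q r e : ℕ) (W : ℕ → Set (X k)) (R : ℕ → ℕ) (n : ℕ → ℝ) (β : ℝ)
    (Y : Finset (X k)) (Dg : X k → Finset ℕ) (hq : 1 ≤ q) (hβ : 0 < β)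
    (hC : ∀ l, 1 ≤ l → l + 2 ≤ e → 0 < n l ∧ Car q (W l) (W (l + 1)) (n l))
    (hD : ∀ y ∈ Y, Dg y ⊆ range q ∧ β ≤ ((Dg y).card : ℝ) ∧
      ∀ b ∈ Dg y, ∃ h ∈ H k q r, phi q b (y + h) ∈ W 1) (j : ℕ) (hj : j + 2 ≤ e) :
    ∃ (Y' : Finset (X k)) (p : X k → List ℕ) (s : X k → X k), Y' ⊆ Y ∧
      (∀ y ∈ Y', (p y).length = j + 1 ∧ (∀ b ∈ p y, b < q) ∧ (∃ b ∈ Dg y, (p y).head? = some b) ∧
        s y ∈ H k q r ∧ ∀ t, 1 ≤ t → t ≤ j + 1 → Ch q ((p y).take t) (y + s y) ∈ W t) ∧
      (∀ y ∈ Y', ∀ y' ∈ Y', (p y).head? = (p y').head? ∧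
        ∀ l, 1 ≤ l → l ≤ j → max 1 (R l) + l < e → (p y)[l]? = (p y')[l]?) ∧
      (Y.card : ℝ) ≤ Y'.card * (((q : ℝ) / β) *
        ∏ l ∈ (Icc 1 j).filter (fun l => max 1 (R l) + l < e), ((q : ℝ) / n l)) := by
  classical
  have hq0 : (0 : ℝ) < q := by exact_mod_cast hq
  induction j with
  | zero =>
    obtain ⟨b, hb, h1⟩ := pigeon Y Dg q hq β fun y hy => ⟨(hD y hy).1, (hD y hy).2.1⟩
    have h2 : ∀ y : X k, ∃ h : X k, y ∈ Y → b ∈ Dg y → h ∈ H k q r ∧ phi q b (y + h) ∈ W 1 := by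
      intro y
      by_cases hy : y ∈ Y ∧ b ∈ Dg y
      · obtain ⟨h, hh, hw⟩ := (hD y hy.1).2.2 b hy.2
        exact ⟨h, fun _ _ => ⟨hh, hw⟩⟩
      · exact ⟨0, fun h3 h4 => absurd ⟨h3, h4⟩ hy⟩
    choose s hs using h2
    refine ⟨Y.filter fun y => b ∈ Dg y, fun _ => [b], s, Finset.filter_subset _ _, ?_, ?_, ?_⟩
    · intro y hy
      rw [Finset.mem_filter] at hy
      obtain ⟨h3, h4⟩ := hs y hy.1 hy.2
      refine ⟨rfl, fun c hc => ?_, ⟨b, hy.2, rfl⟩, h3, fun t ht1 ht2 => ?_⟩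
      · rw [List.mem_singleton] at hc
        omega
      · obtain rfl : t = 1 := by omega
        exact h4
    · intro y _ y' _
      exact ⟨rfl, fun l hl1 hl2 => by omega⟩
    · have h5 : (Icc 1 0 : Finset ℕ) = ∅ := rfl
      rw [h5, Finset.filter_empty, Finset.prod_empty, mul_one, mul_div_assoc', le_div_iff₀ hβ]
      linarith
  | succ j ih =>
    obtain ⟨Y', p, s, hY, h1, h2, h3⟩ := ih (by omega)
    obtain ⟨hn, hcar⟩ := hC (j + 1) (by omega) (by omega)
    -- the children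
    have h4 : ∀ y : X k, ∃ D : Finset ℕ, y ∈ Y' → D ⊆ range q ∧
        (∀ b ∈ D, phi q b (Ch q (p y) (y + s y)) ∈ W (j + 2)) ∧ n (j + 1) ≤ (D.card : ℝ) := by
      intro y
      by_cases hy : y ∈ Y'
      · obtain ⟨hl, -, -, -, ht⟩ := h1 y hy
        have h5 := ht (j + 1) (by omega) le_rfl
        rw [← hl, List.take_length, hl] at h5
        obtain ⟨D, hD1, hD2, hD3⟩ := hcar _ h5
        exact ⟨D, fun _ => ⟨hD1, hD2, hD3⟩⟩
      · exact ⟨∅, fun h => absurd h hy⟩
    choose D hDD using h4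
    -- the invariant of an extended path
    have key : ∀ y ∈ Y', ∀ c ∈ D y, (p y ++ [c]).length = j + 1 + 1 ∧
        (∀ b ∈ p y ++ [c], b < q) ∧ (∃ b ∈ Dg y, (p y ++ [c]).head? = some b) ∧
        s y ∈ H k q r ∧ ∀ t, 1 ≤ t → t ≤ j + 1 + 1 →
          Ch q ((p y ++ [c]).take t) (y + s y) ∈ W t := by
      intro y hy c hc
      obtain ⟨hl, hd, ⟨b, hb, hb'⟩, hs, ht⟩ := h1 y hy
      obtain ⟨hD1, hD2, -⟩ := hDD y hy
      refine ⟨by rw [List.length_append, hl, List.length_singleton], fun b' hb'' => ?_,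
        ⟨b, hb, ?_⟩, hs, fun t ht1 ht2 => ?_⟩
      · rcases List.mem_append.1 hb'' with h | h
        · exact hd b' h
        · rw [List.mem_singleton] at h
          rw [h]
          exact Finset.mem_range.1 (hD1 hc)
      · rw [List.head?_append, hb']
        rfl
      · rcases Nat.lt_or_ge t (j + 1 + 1) with h | h
        · rw [List.take_append_of_le_length (by omega)]
          exact ht t ht1 (by omega)
        · obtain rfl : t = j + 1 + 1 := by omega
          have h6 : (p y ++ [c]).take (j + 1 + 1) = p y ++ [c] := by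
            apply List.take_of_length_le
            rw [List.length_append, hl, List.length_singleton]
          rw [h6, Ch_snoc]
          exact hD2 c hc
    have hhead : ∀ y ∈ Y', ∀ c, (p y ++ [c]).head? = (p y).head? := by
      intro y hy c
      obtain ⟨-, -, ⟨b, hb, hb'⟩, -, -⟩ := h1 y hy
      rw [List.head?_append, hb']
      rfl
    have hget : ∀ y ∈ Y', ∀ c, ∀ l, l ≤ j → (p y ++ [c])[l]? = (p y)[l]? := by
      intro y hy c l hl
      exact List.getElem?_append_left (by rw [(h1 y hy).1]; omega)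
    have hget2 : ∀ y ∈ Y', ∀ c, (p y ++ [c])[j + 1]? = some c := by
      intro y hy c
      rw [List.getElem?_append_right (by rw [(h1 y hy).1]), (h1 y hy).1]
      simp
    have hI : (Icc 1 (j + 1) : Finset ℕ) = insert (j + 1) (Icc 1 j) := by
      ext x
      simp only [Finset.mem_insert, Finset.mem_Icc]
      omega
    by_cases hc : max 1 (R (j + 1)) + (j + 1) < e
    · obtain ⟨c, hcq, h5⟩ := pigeon Y' D q hq (n (j + 1)) fun y hy =>
        ⟨(hDD y hy).1, (hDD y hy).2.2⟩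
      refine ⟨Y'.filter fun y => c ∈ D y, fun y => p y ++ [c], s,
        (Finset.filter_subset _ _).trans hY, ?_, ?_, ?_⟩
      · intro y hy
        rw [Finset.mem_filter] at hy
        exact key y hy.1 c hy.2
      · intro y hy y' hy'
        rw [Finset.mem_filter] at hy hy'
        refine ⟨?_, fun l hl1 hl2 hl3 => ?_⟩
        · rw [hhead y hy.1, hhead y' hy'.1]
          exact (h2 y hy.1 y' hy'.1).1
        · rcases Nat.lt_or_ge l (j + 1) with h | h
          · rw [hget y hy.1 c l (by omega), hget y' hy'.1 c l (by omega)]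
            exact (h2 y hy.1 y' hy'.1).2 l hl1 (by omega) hl3
          · obtain rfl : l = j + 1 := by omega
            rw [hget2 y hy.1, hget2 y' hy'.1]
      · rw [hI, Finset.filter_insert, if_pos hc, Finset.prod_insert (by simp)]
        have h6 : (Y'.card : ℝ) ≤
            ((Y'.filter fun y => c ∈ D y).card : ℝ) * ((q : ℝ) / n (j + 1)) := by
          rw [mul_div_assoc', le_div_iff₀ hn]
          linarith
        have hP : 0 ≤ ((q : ℝ) / β) *
            ∏ l ∈ (Icc 1 j).filter (fun l => max 1 (R l) + l < e), ((q : ℝ) / n l) := by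
          refine mul_nonneg (by positivity) (Finset.prod_nonneg fun l hl => ?_)
          rw [Finset.mem_filter, Finset.mem_Icc] at hl
          exact div_nonneg hq0.le (hC l hl.1.1 (by omega)).1.le
        calc (Y.card : ℝ) ≤ Y'.card * (((q : ℝ) / β) *
              ∏ l ∈ (Icc 1 j).filter (fun l => max 1 (R l) + l < e), ((q : ℝ) / n l)) := h3
          _ ≤ (((Y'.filter fun y => c ∈ D y).card : ℝ) * ((q : ℝ) / n (j + 1))) *
              (((q : ℝ) / β) *
              ∏ l ∈ (Icc 1 j).filter (fun l => max 1 (R l) + l < e), ((q : ℝ) / n l)) :=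
            mul_le_mul_of_nonneg_right h6 hP
          _ = _ := by ring
    · have h5 : ∀ y : X k, ∃ c : ℕ, y ∈ Y' → c ∈ D y := by
        intro y
        by_cases hy : y ∈ Y'
        · have h6 : 0 < ((D y).card : ℝ) := hn.trans_le (hDD y hy).2.2
          have h7 : 0 < (D y).card := by exact_mod_cast h6
          obtain ⟨c, hc'⟩ := Finset.card_pos.1 h7
          exact ⟨c, fun _ => hc'⟩
        · exact ⟨0, fun h => absurd h hy⟩
      choose c hcc using h5
      refine ⟨Y', fun y => p y ++ [c y], s, hY, fun y hy => key y hy (c y) (hcc y hy), ?_, ?_⟩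
      · intro y hy y' hy'
        refine ⟨?_, fun l hl1 hl2 hl3 => ?_⟩
        · rw [hhead y hy, hhead y' hy']
          exact (h2 y hy y' hy').1
        · rcases Nat.lt_or_ge l (j + 1) with h | h
          · rw [hget y hy (c y) l (by omega), hget y' hy' (c y') l (by omega)]
            exact (h2 y hy y' hy').2 l hl1 (by omega) hl3
          · obtain rfl : l = j + 1 := by omega
            exact absurd hl3 hc
      · rw [hI, Finset.filter_insert, if_neg hc]
        exact h3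

end PP

open PP in
/-- PP -/
theorem pf_PP : TK_PP := by
  intro k q r e W R n β Y Dg hq he hβ hC hD
  obtain ⟨j, rfl⟩ : ∃ j, e = j + 2 := ⟨e - 2, by omega⟩
  obtain ⟨Y', p, s, h0, h1, h2, h3⟩ := main k q r (j + 2) W R n β Y Dg hq hβ hC hD j le_rfl
  refine ⟨Y', p, s, h0, fun y hy => ?_, fun y hy y' hy' => ?_, ?_⟩
  · obtain ⟨a1, a2, a3, a4, a5⟩ := h1 y hy
    exact ⟨a1, a2, a3, a4, fun t ht1 ht2 => a5 t ht1 (by omega)⟩
  · obtain ⟨a1, a2⟩ := h2 y hy y' hy'
    exact ⟨a1, fun l hl1 hl2 hl3 => a2 l hl1 (by omega) hl3⟩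
  · exact h3

end Pool.Agent.H7.CLK
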